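import Pool.Agent.Helper94.PQ.StmtsC
import Pool.Agent.Helper18.PQ.DY2

/-!
# Row CIK: the quadratic character
-/

set_option autoImplicit false

open NumberField
open scoped Classical

namespace PQ

open BKA CP18 Pool.Agent.Helper13.Swan

namespace CIK79

section

variable {F : Type} [Field F] [NumberField F]

/-- there is a prime over every place -/
theorem exists_over (v : Pl F) : ∃ 𝔓 : Ideal (Zb F), Over v 𝔓 := by
  let f : 𝓞 F →+* Zb F :=
    { toFun := fun x => ⟨algebraMap F (AlgebraicClosure F) x,
        (x.isIntegral_coe).map ((algebraMap F (AlgebraicClosure F)).toIntAlgHom)⟩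
      map_one' := by
        apply Subtype.ext
        simp
      map_mul' := by
        intro x y
        apply Subtype.ext
        simp
      map_zero' := by
        apply Subtype.ext
        simp
      map_add' := by
        intro x y
        apply Subtype.ext
        simp }
  let _ : Algebra (𝓞 F) (Zb F) := f.toAlgebra
  have hinj : Function.Injective (algebraMap (𝓞 F) (Zb F)) := by
    intro x y h
    have h1 : algebraMap F (AlgebraicClosure F) (x : F) =
        algebraMap F (AlgebraicClosure F) (y : F) := congrArg Subtype.val h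
    exact RingOfIntegers.ext ((algebraMap F (AlgebraicClosure F)).injective h1)
  have hint : Algebra.IsIntegral (𝓞 F) (Zb F) := by
    constructor
    intro x
    have h1 : IsIntegral ℤ x := integralClosure.isIntegral x
    obtain ⟨p, hp, hpx⟩ := h1
    refine ⟨p.map (algebraMap ℤ (𝓞 F)), hp.map _, ?_⟩
    rw [Polynomial.eval₂_map]
    have h2 : (algebraMap (𝓞 F) (Zb F)).comp (algebraMap ℤ (𝓞 F)) = algebraMap ℤ (Zb F) :=
      RingHom.ext_int _ _
    rw [h2]
    exact hpx
  have hprime : v.asIdeal.IsPrime := v.isPrime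
  obtain ⟨Q, hQ, hQc⟩ := Ideal.exists_ideal_over_prime_of_isIntegral_of_isDomain
    (S := Zb F) v.asIdeal (by
      rw [(RingHom.injective_iff_ker_eq_bot _).1 hinj]
      exact bot_le)
  refine ⟨Q, hQ, ?_⟩
  intro x y hxy
  rw [← hQc, Ideal.mem_comap]
  have : algebraMap (𝓞 F) (Zb F) x = y := by
    apply Subtype.ext
    exact hxy.symm
  rw [this]

/-- the quadratic character -/
noncomputable def kap (K : Type) [Field K] (y : AlgebraicClosure F) (hy0 : y ≠ 0)
    (hy : ∀ σ : Gal F, σ y = y ∨ σ y = -y) :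
    Gal F →* Matrix.GeneralLinearGroup (Fin 1) K where
  toFun σ := if σ y = y then 1 else -1
  map_one' := by simp
  map_mul' σ τ := by
    have hne : -y ≠ y := by
      intro h
      apply hy0
      have h2 : (2 : AlgebraicClosure F) * y = 0 := by linear_combination -h
      rcases mul_eq_zero.1 h2 with h3 | h3
      · exact absurd h3 two_ne_zero
      · exact h3
    rw [AlgEquiv.mul_apply]
    rcases hy σ with h1 | h1 <;> rcases hy τ with h2 | h2
    · simp [h1, h2]
    · rw [h2, map_neg, h1]
      simp [hne, h1]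
    · rw [h2, h1]
      simp [hne]
    · rw [h2, map_neg, h1, neg_neg]
      simp [hne]

theorem kap_pos (K : Type) [Field K] (y : AlgebraicClosure F) (hy0 : y ≠ 0)
    (hy : ∀ σ : Gal F, σ y = y ∨ σ y = -y) (σ : Gal F) (h : σ y = y) :
    kap K y hy0 hy σ = 1 := if_pos h

theorem kap_neg (K : Type) [Field K] (y : AlgebraicClosure F) (hy0 : y ≠ 0)
    (hy : ∀ σ : Gal F, σ y = y ∨ σ y = -y) (σ : Gal F) (h : σ y ≠ y) :
    kap K y hy0 hy σ = -1 := if_neg h

theorem kap_cont (K : Type) [Field K] [TopologicalSpace K] (y : AlgebraicClosure F) (hy0 : y ≠ 0)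
    (hy : ∀ σ : Gal F, σ y = y ∨ σ y = -y) (L : IntermediateField F (AlgebraicClosure F))
    (hL : FiniteDimensional F L) (hyL : y ∈ L) : Continuous (kap K y hy0 hy) := by
  have h1 : IsOpen ((MulAction.stabilizer (Gal F) y : Subgroup (Gal F)) : Set (Gal F)) := by
    refine Subgroup.isOpen_mono (H₁ := L.fixingSubgroup) ?_
      (IntermediateField.fixingSubgroup_isOpen L)
    intro σ hσ
    rw [MulAction.mem_stabilizer_iff]
    rw [IntermediateField.mem_fixingSubgroup_iff] at hσ
    exact hσ y hyL
  have h2 := Subgroup.isClosed_of_isOpen _ h1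
  have h3 : ((MulAction.stabilizer (Gal F) y : Subgroup (Gal F)) : Set (Gal F)) =
      {σ : Gal F | σ y = y} := by
    ext σ
    rfl
  rw [h3] at h1 h2
  have h4 : IsClopen {σ : Gal F | σ y = y} := ⟨h2, h1⟩
  have h5 : Continuous (fun σ : Gal F => if σ y = y then
      (1 : Matrix.GeneralLinearGroup (Fin 1) K) else -1) := by
    refine Continuous.if ?_ continuous_const continuous_const
    intro a ha
    rw [h4.frontier_eq] at ha
    exact ha.elim
  exact h5

end

/-- CIK -/
theorem cik (hGRP : ST_GRP) : ST_CIK := by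
  intro F _ _ δ hδ ℓ _ K _ _ _ _ _
  have hchar : CharZero K := charZero_of_injective_algebraMap (algebraMap ℚ_[ℓ] K).injective
  obtain ⟨y, hy⟩ : ∃ y : AlgebraicClosure F, y ^ 2 = algebraMap F (AlgebraicClosure F) δ :=
    IsAlgClosed.exists_pow_nat_eq _ (by norm_num)
  have hy0 : y ≠ 0 := by
    intro h
    rw [h, zero_pow two_ne_zero] at hy
    exact hδ ((map_eq_zero _).1 hy.symm)
  have hys : ∀ σ : Gal F, σ y = y ∨ σ y = -y := by
    intro σ
    apply sq_eq_sq_iff_eq_or_eq_neg.1
    rw [← map_pow, hy, AlgEquiv.commutes]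
  have hne : -y ≠ y := by
    intro h
    apply hy0
    have h2 : (2 : AlgebraicClosure F) * y = 0 := by linear_combination -h
    rcases mul_eq_zero.1 h2 with h3 | h3
    · exact absurd h3 two_ne_zero
    · exact h3
  obtain ⟨L, -, hyL, hLf, hLn, hLfix⟩ := dy_field δ y hy ⊥ inferInstance inferInstance
  have hLfix' : ∀ σ : Gal F, σ y = y → ∀ x ∈ L, σ x = x := by
    intro σ hσ
    apply hLfix σ _ hσ
    intro x hx
    obtain ⟨z, rfl⟩ := IntermediateField.mem_bot.1 hx
    exact AlgEquiv.commutes σ z
  -- automorphisms of `L`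
  have haut : ∀ g h : L ≃ₐ[F] L, g ⟨y, hyL⟩ = h ⟨y, hyL⟩ → g = h := by
    intro g h hgh
    have key : ∀ t : L ≃ₐ[F] L, t ⟨y, hyL⟩ = ⟨y, hyL⟩ → t = 1 := by
      intro t ht
      have h1 : ∀ x : L, (t.liftNormal (AlgebraicClosure F)) (x : AlgebraicClosure F) =
          ((t x : L) : AlgebraicClosure F) := fun x =>
        AlgEquiv.liftNormal_commutes t (AlgebraicClosure F) x
      have h2 := hLfix' (t.liftNormal (AlgebraicClosure F)) (by
        have := h1 ⟨y, hyL⟩
        rw [ht] at this
        exact this)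
      ext x
      rw [← h1 x, h2 x x.2]
      rfl
    have h3 := key (h⁻¹ * g) (by
      rw [AlgEquiv.mul_apply, hgh, ← AlgEquiv.mul_apply, inv_mul_cancel]
      rfl)
    have h4 : g = h * (h⁻¹ * g) := by group
    rw [h4, h3, mul_one]
  have hval : ∀ g : L ≃ₐ[F] L, g ⟨y, hyL⟩ = ⟨y, hyL⟩ ∨ g ⟨y, hyL⟩ = -⟨y, hyL⟩ := by
    intro g
    apply sq_eq_sq_iff_eq_or_eq_neg.1
    have h1 : (⟨y, hyL⟩ : L) ^ 2 = algebraMap F L δ := by
      apply Subtype.ext
      exact hy
    rw [← map_pow, h1, AlgEquiv.commutes]
  set κ := kap K y hy0 hys with hκ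
  have hdet : ∀ σ : Gal F, σ y ≠ y →
      ((κ σ : Matrix.GeneralLinearGroup (Fin 1) K) : Matrix (Fin 1) (Fin 1) K) = -1 := by
    intro σ h
    rw [hκ, kap_neg K y hy0 hys σ h]
    simp
  have hdet1 : ∀ σ : Gal F, σ y = y →
      ((κ σ : Matrix.GeneralLinearGroup (Fin 1) K) : Matrix (Fin 1) (Fin 1) K) = 1 := by
    intro σ h
    rw [hκ, kap_pos K y hy0 hys σ h]
    simp
  refine ⟨{ ρ := κ
            cont := kap_cont K y hy0 hys L hLf hyL
            B := 1
            symm := Matrix.transpose_one
            nondeg := by simp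
            inv := ?_
            det := ?_ }, ?_⟩
  · intro σ
    by_cases h : σ y = y
    · rw [hdet1 σ h]
      simp
    · rw [hdet σ h]
      simp
  · intro σ y' hy'
    have h1 : y' = y ∨ y' = -y := by
      apply sq_eq_sq_iff_eq_or_eq_neg.1
      rw [hy', hy]
    by_cases h : σ y = y
    · left
      refine ⟨?_, ?_⟩
      · rcases h1 with rfl | rfl
        · exact h
        · rw [map_neg, h]
      · rw [hdet1 σ h]
        simp
    · right
      have h2 : σ y = -y := (hys σ).resolve_left h
      refine ⟨?_, ?_⟩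
      · rcases h1 with rfl | rfl
        · exact h2
        · rw [map_neg, h2]
      · rw [hdet σ h]
        simp
  · intro v
    show ∃ d : ℕ, IsCond κ v d
    obtain ⟨𝔓, hO⟩ := exists_over v
    obtain ⟨-, -, hWI, -, -, -, hOn, hRam⟩ := hGRP F v 𝔓 hO
    -- the codimension is zero if the set acts trivially
    have hcod : ∀ S : Set (Gal F), codim κ S ≠ 0 → ∃ σ ∈ S, σ y ≠ y := by
      intro S hS
      by_contra hcon
      push Not at hcon
      apply hS
      have h1 : fixd κ S = ⊤ := by
        rw [eq_top_iff]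
        intro x _ σ hσ
        show ((κ σ : Matrix.GeneralLinearGroup (Fin 1) K) : Matrix (Fin 1) (Fin 1) K).mulVec x = x
        rw [hdet1 σ (hcon σ hσ), Matrix.one_mulVec]
      unfold codim
      rw [h1, finrank_top]
      simp
    have hterm : ∀ i : ℕ, ramCard L 𝔓 (i + 1) * codim κ {σ | Wild 𝔓 σ ∧ Ram L 𝔓 (i + 1) σ} =
        ramCard L 𝔓 0 * codim κ {σ | Wild 𝔓 σ ∧ Ram L 𝔓 (i + 1) σ} := by
      intro i
      by_cases h0 : codim κ {σ | Wild 𝔓 σ ∧ Ram L 𝔓 (i + 1) σ} = 0
      · rw [h0, mul_zero, mul_zero]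
      · obtain ⟨σ, ⟨hσW, hσR⟩, hσy⟩ := hcod _ h0
        obtain ⟨g, hg, hon⟩ := hOn L hLn σ (hWI σ hσW)
        have hgR := (hRam L (i + 1) σ g hon).1 hσR
        have hgy : g ⟨y, hyL⟩ = -⟨y, hyL⟩ := by
          rcases hval g with h | h
          · exfalso
            apply hσy
            have := hon ⟨y, hyL⟩
            rw [h] at this
            exact this
          · exact h
        congr 1
        unfold ramCard
        apply Nat.card_congr
        apply Equiv.subtypeEquivRight
        intro h
        constructor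
        · intro hh x z hxz
          exact Ideal.pow_le_pow_right (by omega) (hh x z hxz)
        · intro hh
          rcases hval h with h1 | h1
          · have h2 : h = 1 := haut h 1 h1
            subst h2
            intro x z hxz
            have : z = x := RingOfIntegers.ext hxz
            rw [this, sub_self]
            exact Ideal.zero_mem _
          · have h2 : h = g := haut h g (by rw [h1, hgy])
            subst h2
            exact hgR
    refine ⟨codim κ {σ | Congr 𝔓 1 σ} + ∑ᶠ i : ℕ, codim κ {σ | Wild 𝔓 σ ∧ Ram L 𝔓 (i + 1) σ},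
      𝔓, L, hO, hLf, hLn, ?_, ?_⟩
    · intro σ _ hσ
      exact kap_pos K y hy0 hys σ (hσ y hyL)
    · rw [mul_add]
      congr 1
      rw [finsum_congr hterm]
      rw [mul_finsum]

end CIK79

/-- CIK -/
theorem cik79 (hGRP : ST_GRP) : ST_CIK := CIK79.cik hGRP

end PQ
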