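import Pool.Agent.Helper94.PQ.Stmts

/-!
# The arithmetic part (row ODDA)
-/

namespace PQ79

/-- Abel summation: `S_j` is congruent to `j c_j` modulo `e` -/
theorem sum_congr_mod (e : ℕ) (c : ℕ → ℕ)
    (h : ∀ i, 1 ≤ i → (e : ℤ) ∣ i * ((c i : ℤ) - c (i + 1))) (j : ℕ) :
    (e : ℤ) ∣ (∑ i ∈ Finset.Icc 1 (j + 1), (c i : ℤ)) - ((j + 1 : ℕ) : ℤ) * c (j + 1) := by
  induction j with
  | zero => simp
  | succ j ih =>
    rw [Finset.sum_Icc_succ_top (by omega)]
    have h1 := h (j + 1) (by omega)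
    have h2 := dvd_add ih h1
    have h3 : (∑ i ∈ Finset.Icc 1 (j + 1), (c i : ℤ)) + (c (j + 1 + 1) : ℤ)
        - ((j + 1 + 1 : ℕ) : ℤ) * c (j + 1 + 1)
        = (∑ i ∈ Finset.Icc 1 (j + 1), (c i : ℤ)) - ((j + 1 : ℕ) : ℤ) * c (j + 1)
          + ((j + 1 : ℕ) : ℤ) * ((c (j + 1) : ℤ) - c (j + 1 + 1)) := by
      push_cast
      ring
    rw [h3]
    exact h2

end PQ79

namespace PQ

theorem odda79 : ST_ODDA := by
  intro e L c d κ he hodd hdiv hpar b hb
  have key : ∀ j, 1 ≤ j → ∃ t : ℤ,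
      ((e / e.gcd j * d j : ℕ) : ℤ) * (∑ i ∈ Finset.Icc 1 j, (c i : ℤ)) + e * c 1 * κ j
        = e * (2 * t) := by
    intro j hj
    set g := e.gcd j with hg
    have hgpos : 0 < g := Nat.gcd_pos_of_pos_left _ he
    obtain ⟨N, hN⟩ : g ∣ e := Nat.gcd_dvd_left e j
    obtain ⟨j', hj'⟩ : g ∣ j := Nat.gcd_dvd_right e j
    have hNe : e / g = N := by rw [hN]; exact Nat.mul_div_cancel_left N hgpos
    have hcop : Nat.Coprime N j' := by
      have h1 := Nat.coprime_div_gcd_div_gcd (m := e) (n := j) (by rw [← hg]; exact hgpos)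
      rw [← hg, hNe] at h1
      have : j / g = j' := by rw [hj']; exact Nat.mul_div_cancel_left j' hgpos
      rwa [this] at h1
    obtain ⟨m, hm⟩ : (e : ℤ) ∣ (∑ i ∈ Finset.Icc 1 j, (c i : ℤ)) - (j : ℤ) * c j := by
      obtain ⟨k, rfl⟩ : ∃ k, j = k + 1 := ⟨j - 1, by omega⟩
      exact PQ79.sum_congr_mod e c hdiv k
    have hS : (∑ i ∈ Finset.Icc 1 j, (c i : ℤ)) = (j : ℤ) * c j + e * m := by linarith
    have hp := hpar j hj
    rw [← hg, hNe] at hp
    rw [hNe, hS]
    have hbr : Even ((d j : ℤ) * (j' * c j + N * m) + c 1 * κ j) := by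
      by_cases hNev : Even N
      · have h1 := hp.1 hNev
        have hj'odd : Odd j' := by
          rcases Nat.even_or_odd j' with h | h
          · exfalso
            have h2 : 2 ∣ Nat.gcd N j' := Nat.dvd_gcd hNev.two_dvd h.two_dvd
            rw [hcop] at h2
            omega
          · exact h
        have e1 : Odd ((j' : ℤ) * c j + N * m) := by
          apply Odd.add_even
          · exact (by exact_mod_cast hj'odd : Odd (j' : ℤ)).mul (by exact_mod_cast hodd j)
          · exact (by exact_mod_cast hNev : Even (N : ℤ)).mul_right m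
        have e2 : Odd ((c 1 : ℤ)) := by exact_mod_cast hodd 1
        have e3 : Even ((d j : ℤ) + κ j) := by exact_mod_cast h1
        have e4 := Int.not_even_iff_odd.mpr e1
        have e5 := Int.not_even_iff_odd.mpr e2
        rw [Int.even_add] at e3
        rw [Int.even_add, Int.even_mul, Int.even_mul]
        tauto
      · have h1 := hp.2 hNev
        have e1 : Even (d j : ℤ) := by exact_mod_cast h1.1
        have e2 : Even (κ j : ℤ) := by exact_mod_cast h1.2
        exact (e1.mul_right _).add (e2.mul_left _)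
    obtain ⟨t, ht⟩ := hbr
    refine ⟨t, ?_⟩
    have hez : (e : ℤ) = g * N := by rw [hN]; push_cast; ring
    have hjz : (j : ℤ) = g * j' := by rw [hj']; push_cast; ring
    have h3 : (d j : ℤ) * (j' * c j + N * m) + c 1 * κ j = 2 * t := by rw [ht]; ring
    rw [← h3]
    push_cast
    rw [hjz, hez]
    ring
  choose! t ht using key
  have hsum : ∑ j ∈ Finset.Icc 1 L,
      ((e / e.gcd j * d j : ℕ) * (∑ i ∈ Finset.Icc 1 j, (c i : ℤ)) + e * c 1 * κ j)
        = ∑ j ∈ Finset.Icc 1 L, (e : ℤ) * (2 * t j) := by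
    refine Finset.sum_congr rfl fun j hj => ?_
    exact ht j (Finset.mem_Icc.mp hj).1
  rw [hsum, ← Finset.mul_sum, ← Finset.mul_sum, mul_assoc] at hb
  have he' : (e : ℤ) ≠ 0 := by exact_mod_cast he.ne'
  have h4 := mul_left_cancel₀ he' hb
  have h5 : Even ((c 1 : ℤ) * b) := by rw [h4]; exact even_two_mul _
  rw [Int.even_mul] at h5
  rcases h5 with h5 | h5
  · exact absurd h5 (Int.not_even_iff_odd.mpr (by exact_mod_cast hodd 1))
  · exact h5

end PQ
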