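import Pool.Agent.Helper94.PQ.StmtsK
import Pool.Agent.Helper29.PQ.Q3

/-! # Row Q3K: traces of elements of `2`-power order over an extension of `ℚ_3` of odd degree -/

namespace PQ79

open Polynomial

/-- the degree of the field generated by a root of unity of order a power of two -/
theorem finrank_dvd (k : ℕ) {Ω : Type} [Field Ω] [Algebra ℚ_[3] Ω]
    [Algebra.IsAlgebraic ℚ_[3] Ω] (ζ : Ω) (hζ : IsPrimitiveRoot ζ (2 ^ k)) :
    Module.finrank ℚ_[3] (IntermediateField.adjoin ℚ_[3] {ζ}) ∣ 2 ^ k := by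
  have : NeZero (2 ^ k) := ⟨by positivity⟩
  have hcyc : IsCyclotomicExtension {2 ^ k} ℚ_[3] (IntermediateField.adjoin ℚ_[3] {ζ}) :=
    hζ.intermediateField_adjoin_isCyclotomicExtension ℚ_[3]
  have hfin : FiniteDimensional ℚ_[3] (IntermediateField.adjoin ℚ_[3] {ζ}) :=
    IsCyclotomicExtension.finiteDimensional {2 ^ k} ℚ_[3] _
  have hgal : IsGalois ℚ_[3] (IntermediateField.adjoin ℚ_[3] {ζ}) :=
    IsCyclotomicExtension.isGalois {2 ^ k} ℚ_[3] _
  have hz : IsPrimitiveRoot (IntermediateField.AdjoinSimple.gen ℚ_[3] ζ) (2 ^ k) := by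
    apply IsPrimitiveRoot.coe_submonoidClass_iff.mp
    exact hζ
  have hinj := hz.autToPow_injective (K := ℚ_[3])
  have h1 : Nat.card ((IntermediateField.adjoin ℚ_[3] {ζ}) ≃ₐ[ℚ_[3]]
      (IntermediateField.adjoin ℚ_[3] {ζ})) ∣ Nat.card (ZMod (2 ^ k))ˣ :=
    Subgroup.card_dvd_of_injective _ hinj
  rw [IsGalois.card_aut_eq_finrank, Nat.card_eq_fintype_card, ZMod.card_units_eq_totient] at h1
  refine h1.trans ?_
  rcases Nat.eq_zero_or_pos k with rfl | hk
  · simp
  · rw [Nat.totient_prime_pow Nat.prime_two hk]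
    simp only [Nat.add_one_sub_one, mul_one]
    exact pow_dvd_pow 2 (Nat.sub_le k 1)

end PQ79

namespace PQ

open Polynomial

theorem q3k : ST_Q3K := by
  classical
  intro K _ _ _ hodd n k T hT
  have hN0 : 0 < 2 ^ k := by positivity
  have hN3 : ¬ 3 ∣ 2 ^ k := by
    intro h
    have := (Nat.prime_three).dvd_of_dvd_pow h
    omega
  have : CharZero K := charZero_of_injective_algebraMap (algebraMap ℚ_[3] K).injective
  let Ω := AlgebraicClosure K
  have : CharZero Ω := charZero_of_injective_algebraMap (algebraMap K Ω).injective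
  have halg : Algebra.IsAlgebraic ℚ_[3] Ω := Algebra.IsAlgebraic.trans ℚ_[3] K Ω
  have hac : IsAlgClosure ℚ_[3] Ω := ⟨inferInstance, halg⟩
  have hnormal : Normal ℚ_[3] Ω := IsAlgClosure.normal ℚ_[3] Ω
  obtain ⟨ζ, hζ⟩ := HasEnoughRootsOfUnity.exists_primitiveRoot Ω (2 ^ k)
  have h1 : aeval (ζ ^ 3) (minpoly ℚ_[3] ζ) = 0 := exists_frob (2 ^ k) hN3 hN0 ζ hζ.pow_eq_one
  have h2 : IsConjRoot ℚ_[3] ζ (ζ ^ 3) :=
    (isConjRoot_iff_aeval_eq_zero (Algebra.IsIntegral.isIntegral ζ)).2 h1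
  obtain ⟨σ, hσ⟩ := isConjRoot_iff_exists_algEquiv.1 h2.symm
  set A : Matrix (Fin n) (Fin n) Ω := T.map (algebraMap K Ω) with hA
  have hApow : ∀ m, A ^ m = (T ^ m).map (algebraMap K Ω) := by
    intro m
    exact (map_pow (algebraMap K Ω).mapMatrix T m).symm
  have hAN : A ^ (2 ^ k) = 1 := by
    rw [hApow, hT]
    exact map_one (algebraMap K Ω).mapMatrix
  obtain ⟨t, ht⟩ := exists_mult n (2 ^ k) hN0 ζ hζ A hAN
  have htr : ∀ m, (A ^ m).trace = algebraMap K Ω (T ^ m).trace := by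
    intro m
    rw [hApow]
    exact (AddMonoidHom.map_trace (algebraMap K Ω).toAddMonoidHom (T ^ m)).symm
  -- the trace of `T` lies in `ℚ_3`
  have hrat : ∃ y : ℚ_[3], algebraMap ℚ_[3] Ω y = (A ^ 1).trace := by
    set x : K := (T ^ 1).trace with hx
    have hmem : algebraMap K Ω x ∈ IntermediateField.adjoin ℚ_[3] {ζ} := by
      rw [hx, ← htr, ht 1]
      refine sum_mem fun j _ => mul_mem ?_ (natCast_mem _ _)
      exact pow_mem (pow_mem (IntermediateField.mem_adjoin_simple_self ℚ_[3] ζ) _) _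
    have hfin : FiniteDimensional ℚ_[3] (IntermediateField.adjoin ℚ_[3] {ζ}) :=
      IntermediateField.adjoin.finiteDimensional (Algebra.IsIntegral.isIntegral ζ)
    have hint : IsIntegral ℚ_[3] x := Algebra.IsIntegral.isIntegral x
    have d1 : (minpoly ℚ_[3] x).natDegree ∣ Module.finrank ℚ_[3] K :=
      minpoly.degree_dvd hint
    have d2 : (minpoly ℚ_[3] x).natDegree ∣ 2 ^ k := by
      refine dvd_trans ?_ (PQ79.finrank_dvd k ζ hζ)
      have e1 : minpoly ℚ_[3] x = minpoly ℚ_[3] (algebraMap K Ω x) :=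
        (minpoly.algebraMap_eq (algebraMap K Ω).injective x).symm
      have e2 : minpoly ℚ_[3] (algebraMap K Ω x)
          = minpoly ℚ_[3] (⟨algebraMap K Ω x, hmem⟩ : IntermediateField.adjoin ℚ_[3] {ζ}) :=
        minpoly.algebraMap_eq (B := IntermediateField.adjoin ℚ_[3] {ζ}) (B' := Ω)
          (algebraMap (IntermediateField.adjoin ℚ_[3] {ζ}) Ω).injective ⟨algebraMap K Ω x, hmem⟩
      rw [e1, e2]
      exact minpoly.degree_dvd (Algebra.IsIntegral.isIntegral _)
    have d3 : (minpoly ℚ_[3] x).natDegree = 1 := by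
      have hcop : Nat.Coprime (Module.finrank ℚ_[3] K) (2 ^ k) :=
        Nat.Coprime.pow_right k (Nat.coprime_two_right.mpr hodd)
      exact Nat.eq_one_of_dvd_coprimes hcop d1 d2
    have d4 : x ∈ (algebraMap ℚ_[3] K).range := by
      apply minpoly.mem_range_of_degree_eq_one
      rw [Polynomial.degree_eq_natDegree (minpoly.ne_zero hint), d3]
      rfl
    obtain ⟨y, hy⟩ := d4
    refine ⟨y, ?_⟩
    rw [htr, ← hx, ← hy]
    exact IsScalarTower.algebraMap_apply ℚ_[3] K Ω y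
  have h3 : (A ^ 3).trace = (A ^ 1).trace := by
    have h4 : σ ((A ^ 1).trace) = (A ^ 1).trace := by
      obtain ⟨y, hy⟩ := hrat
      rw [← hy, AlgEquiv.commutes]
    rw [← h4, ht 1, ht 3, map_sum]
    refine Finset.sum_congr rfl fun j _ => ?_
    rw [map_mul, map_natCast, map_pow, pow_one, ← hσ]
  rw [htr, htr] at h3
  have h4 := (algebraMap K Ω).injective h3
  rwa [pow_one] at h4

end PQ
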